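import Pool.Agent.W37.SG.Inf
import Pool.Agent.W398.SG.Final

/-!
MP_9a3597_al: for every odd prime `p` and every `s ≥ 1` there are only finitely many `p`-adic
space groups of finite coclass whose point group has coclass `s` (up to isomorphism of
topological groups).
-/

universe u

open Pool.Agent.W37.SG in
/-- For every odd prime `p` and every `s ≥ 1` there is `N` such that among any `N + 1` `p`-adic
space groups of finite coclass whose point groups have coclass `s`, two are isomorphic as
topological groups. -/
theorem Pool.Agent.Results.MP_9a3597_al.PointGroupCoclass.result :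
    ∀ (p : ℕ) [Fact p.Prime], p ≠ 2 → ∀ s : ℕ, 1 ≤ s → ∃ N : ℕ,
      ∀ (R : Fin (N + 1) → Type u) [∀ i, Group (R i)] [∀ i, TopologicalSpace (R i)]
        [∀ i, IsTopologicalGroup (R i)] (T : ∀ i, Subgroup (R i)) [∀ i, (T i).Normal],
        (∀ i, IsSpaceGroup p (R i) (T i)) → (∀ i, FiniteCoclass p (R i)) →
        (∀ i, CoclassEq p s (R i ⧸ T i)) →
        ∃ i j, i ≠ j ∧ Nonempty (R i ≃ₜ* R j) :=
  Pool.Agent.W398.SG.Final.mainOfInf.{u} Pool.Agent.W37.SG.inf
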